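import Pool.Agent.Helper30.DL.GoalsB

/-!
MP_b4564f_an, packet PTOT: the decrement of the polynomial part of the functional.
-/

set_option autoImplicit false

open Complex (I)
open Pool.Agent.Helper30.DL

namespace Pool.Agent.Helper42.DL

/-- real part of a monomial of degree `(3,0)` -/
theorem m30 (c U : ℂ) (G : ℝ) :
    (c * U ^ 3).re - (c * (U - (G : ℂ)) ^ 3).re
      = G * (3 * (c * U ^ 2).re) - G ^ 2 * (3 * (c * U).re) + G ^ 3 * c.re := by
  obtain ⟨cr, ci⟩ := c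
  obtain ⟨u, v⟩ := U
  simp only [pow_succ, pow_zero, one_mul, Complex.mul_re, Complex.mul_im, Complex.sub_re,
    Complex.sub_im, Complex.ofReal_re, Complex.ofReal_im]
  ring

theorem m21 (c U : ℂ) (G : ℝ) :
    (c * U ^ 2 * cj U).re - (c * (U - (G : ℂ)) ^ 2 * cj (U - (G : ℂ))).re
      = G * ((c * U ^ 2).re + 2 * c.re * Complex.normSq U)
        - G ^ 2 * (2 * (c * U).re + (cj c * U).re) + G ^ 3 * c.re := by
  obtain ⟨cr, ci⟩ := c
  obtain ⟨u, v⟩ := U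
  simp only [cj, pow_succ, pow_zero, one_mul, Complex.mul_re, Complex.mul_im, Complex.sub_re,
    Complex.sub_im, Complex.ofReal_re, Complex.ofReal_im, Complex.conj_re, Complex.conj_im,
    Complex.normSq_apply]
  ring

theorem m40 (c U : ℂ) (G : ℝ) :
    (c * U ^ 4).re - (c * (U - (G : ℂ)) ^ 4).re
      = G * (4 * (c * U ^ 3).re) - G ^ 2 * (6 * (c * U ^ 2).re) + G ^ 3 * (4 * (c * U).re)
        - G ^ 4 * c.re := by
  obtain ⟨cr, ci⟩ := c
  obtain ⟨u, v⟩ := U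
  simp only [pow_succ, pow_zero, one_mul, Complex.mul_re, Complex.mul_im, Complex.sub_re,
    Complex.sub_im, Complex.ofReal_re, Complex.ofReal_im]
  ring

theorem m31 (c U : ℂ) (G : ℝ) :
    (c * U ^ 3 * cj U).re - (c * (U - (G : ℂ)) ^ 3 * cj (U - (G : ℂ))).re
      = G * ((c * U ^ 3).re + 3 * (c * (U ^ 2 * cj U)).re)
        - G ^ 2 * (3 * (c * U ^ 2).re + 3 * c.re * Complex.normSq U)
        + G ^ 3 * (3 * (c * U).re + (cj c * U).re) - G ^ 4 * c.re := by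
  obtain ⟨cr, ci⟩ := c
  obtain ⟨u, v⟩ := U
  simp only [cj, pow_succ, pow_zero, one_mul, Complex.mul_re, Complex.mul_im, Complex.sub_re,
    Complex.sub_im, Complex.ofReal_re, Complex.ofReal_im, Complex.conj_re, Complex.conj_im,
    Complex.normSq_apply]
  ring

theorem m22 (c : ℝ) (U : ℂ) (G : ℝ) :
    ((c : ℂ) * U ^ 2 * cj U ^ 2).re - ((c : ℂ) * (U - (G : ℂ)) ^ 2 * cj (U - (G : ℂ)) ^ 2).re
      = G * (4 * ((c : ℂ) * (U ^ 2 * cj U)).re)
        - G ^ 2 * (2 * ((c : ℂ) * U ^ 2).re + 4 * c * Complex.normSq U)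
        + G ^ 3 * (4 * ((c : ℂ) * U).re) - G ^ 4 * c := by
  obtain ⟨u, v⟩ := U
  simp only [cj, pow_succ, pow_zero, one_mul, Complex.mul_re, Complex.mul_im, Complex.sub_re,
    Complex.sub_im, Complex.ofReal_re, Complex.ofReal_im, Complex.conj_re, Complex.conj_im,
    Complex.normSq_apply]
  ring

theorem m50 (c U : ℂ) (G : ℝ) :
    (c * U ^ 5).re - (c * (U - (G : ℂ)) ^ 5).re
      = G * (5 * (c * U ^ 4).re) - G ^ 2 * (10 * (c * U ^ 3).re) + G ^ 3 * (10 * (c * U ^ 2).re)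
        - G ^ 4 * (5 * (c * U).re) + G ^ 5 * c.re := by
  obtain ⟨cr, ci⟩ := c
  obtain ⟨u, v⟩ := U
  simp only [pow_succ, pow_zero, one_mul, Complex.mul_re, Complex.mul_im, Complex.sub_re,
    Complex.sub_im, Complex.ofReal_re, Complex.ofReal_im]
  ring

theorem m41 (c U : ℂ) (G : ℝ) :
    (c * U ^ 4 * cj U).re - (c * (U - (G : ℂ)) ^ 4 * cj (U - (G : ℂ))).re
      = G * ((c * U ^ 4).re + 4 * (c * (U ^ 3 * cj U)).re)
        - G ^ 2 * (4 * (c * U ^ 3).re + 6 * (c * (U ^ 2 * cj U)).re)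
        + G ^ 3 * (6 * (c * U ^ 2).re + 4 * c.re * Complex.normSq U)
        - G ^ 4 * (4 * (c * U).re + (cj c * U).re) + G ^ 5 * c.re := by
  obtain ⟨cr, ci⟩ := c
  obtain ⟨u, v⟩ := U
  simp only [cj, pow_succ, pow_zero, one_mul, Complex.mul_re, Complex.mul_im, Complex.sub_re,
    Complex.sub_im, Complex.ofReal_re, Complex.ofReal_im, Complex.conj_re, Complex.conj_im,
    Complex.normSq_apply]
  ring

theorem m32 (c U : ℂ) (G : ℝ) :
    (c * U ^ 3 * cj U ^ 2).re - (c * (U - (G : ℂ)) ^ 3 * cj (U - (G : ℂ)) ^ 2).re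
      = G * (2 * (c * (U ^ 3 * cj U)).re + 3 * c.re * Complex.normSq U ^ 2)
        - G ^ 2 * ((c * U ^ 3).re + 6 * (c * (U ^ 2 * cj U)).re
          + 3 * (cj c * (U ^ 2 * cj U)).re)
        + G ^ 3 * (3 * (c * U ^ 2).re + (cj c * U ^ 2).re + 6 * c.re * Complex.normSq U)
        - G ^ 4 * (3 * (c * U).re + 2 * (cj c * U).re) + G ^ 5 * c.re := by
  obtain ⟨cr, ci⟩ := c
  obtain ⟨u, v⟩ := U
  simp only [cj, pow_succ, pow_zero, one_mul, Complex.mul_re, Complex.mul_im, Complex.sub_re,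
    Complex.sub_im, Complex.ofReal_re, Complex.ofReal_im, Complex.conj_re, Complex.conj_im,
    Complex.normSq_apply]
  ring

theorem ptot (h : CstStmt) : PtotStmt := by
  intro k hk t ht P g X U hU
  obtain ⟨-, -, -, -, -, -, -, -, -, hl, -, -, -, -, -, hom, -, -, -, -, -, -, -, hdl, -, -⟩ :=
    h k hk t ht
  have h1 := (hdl 1 (by norm_num) (by norm_num)).2.1
  have h2 := (hdl 2 (by norm_num) (by norm_num)).2.1
  have h3 := (hdl 3 (by norm_num) (by norm_num)).2.1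
  have h4 := (hdl 4 (by norm_num) (by norm_num)).2.1
  have h5 := (hdl 5 (by norm_num) (by norm_num)).2.1
  have hUZ : U = lam t * (ik t * X) := by rw [hU, hom]; ring
  have hcU : cj U = cj (lam t) * cj (ik t * X) := by rw [hUZ]; simp [cj]
  generalize hZ : ik t * X = Z at *
  generalize hG : th t * g = G
  clear hU hom hdl hZ
  have key : (c30 P t * Z ^ 3 + c21 P t * Z ^ 2 * cj Z
      + P.c40 * Z ^ 4 + P.c31 * Z ^ 3 * cj Z + (P.c22 : ℂ) * Z ^ 2 * cj Z ^ 2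
      + P.c50 * Z ^ 5 + P.c41 * Z ^ 4 * cj Z + P.c32 * Z ^ 3 * cj Z ^ 2)
      = (c30 P t * U ^ 3 + c21 P t * U ^ 2 * cj U
      + P.c40 * U ^ 4 + P.c31 * U ^ 3 * cj U + (P.c22 : ℂ) * U ^ 2 * cj U ^ 2
      + P.c50 * U ^ 5 + P.c41 * U ^ 4 * cj U + P.c32 * U ^ 3 * cj U ^ 2)
      + (th t : ℂ) * (c30 P t * dl t 3 * Z ^ 3 + c21 P t * dl t 1 * (Z ^ 2 * cj Z)
        + P.c40 * dl t 4 * Z ^ 4 + P.c31 * dl t 2 * (Z ^ 3 * cj Z)
        + P.c50 * dl t 5 * Z ^ 5 + P.c41 * dl t 3 * (Z ^ 4 * cj Z)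
        + P.c32 * dl t 1 * (Z ^ 3 * cj Z ^ 2)) := by
    rw [hcU, hUZ]
    have e1 : (th t : ℂ) * (c30 P t * dl t 3 * Z ^ 3 + c21 P t * dl t 1 * (Z ^ 2 * cj Z)
        + P.c40 * dl t 4 * Z ^ 4 + P.c31 * dl t 2 * (Z ^ 3 * cj Z)
        + P.c50 * dl t 5 * Z ^ 5 + P.c41 * dl t 3 * (Z ^ 4 * cj Z)
        + P.c32 * dl t 1 * (Z ^ 3 * cj Z ^ 2))
        = c30 P t * ((th t : ℂ) * dl t 3) * Z ^ 3
          + c21 P t * ((th t : ℂ) * dl t 1) * (Z ^ 2 * cj Z)
          + P.c40 * ((th t : ℂ) * dl t 4) * Z ^ 4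
          + P.c31 * ((th t : ℂ) * dl t 2) * (Z ^ 3 * cj Z)
          + P.c50 * ((th t : ℂ) * dl t 5) * Z ^ 5
          + P.c41 * ((th t : ℂ) * dl t 3) * (Z ^ 4 * cj Z)
          + P.c32 * ((th t : ℂ) * dl t 1) * (Z ^ 3 * cj Z ^ 2) := by ring
    rw [e1, h1, h2, h3, h4, h5]
    generalize lam t = l at *
    generalize cj l = l' at *
    generalize cj Z = Z' at *
    linear_combination (-(c21 P t * l * Z ^ 2 * Z' + P.c31 * l ^ 2 * Z ^ 3 * Z'
      + (P.c22 : ℂ) * (l * l' + 1) * Z ^ 2 * Z' ^ 2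
      + P.c41 * l ^ 3 * Z ^ 4 * Z' + P.c32 * l * (l * l' + 1) * Z ^ 3 * Z' ^ 2)) * hl
  have e0 : Pf P t Z = Pf P t U + th t * ((c30 P t * dl t 3 * Z ^ 3).re
        + (c21 P t * dl t 1 * (Z ^ 2 * cj Z)).re
        + (P.c40 * dl t 4 * Z ^ 4).re
        + (P.c31 * dl t 2 * (Z ^ 3 * cj Z)).re
        + (P.c50 * dl t 5 * Z ^ 5).re
        + (P.c41 * dl t 3 * (Z ^ 4 * cj Z)).re
        + (P.c32 * dl t 1 * (Z ^ 3 * cj Z ^ 2)).re) := by
    unfold Pf
    rw [key, Complex.add_re, Complex.re_ofReal_mul]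
    simp only [Complex.add_re]
  have e2 : Pf P t U - Pf P t (U - (G : ℂ)) =
      G * (((3 * c30 P t + c21 P t) * U ^ 2).re + 2 * (c21 P t).re * Complex.normSq U
          + ((4 * P.c40 + P.c31) * U ^ 3).re
          + ((3 * P.c31 + (4 * P.c22 : ℝ)) * (U ^ 2 * cj U)).re
          + ((5 * P.c50 + P.c41) * U ^ 4).re
          + ((4 * P.c41 + 2 * P.c32) * (U ^ 3 * cj U)).re
          + 3 * P.c32.re * Complex.normSq U ^ 2)
        - G ^ 2 * (((3 * c30 P t + 2 * c21 P t + cj (c21 P t)) * U).re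
          + ((6 * P.c40 + 3 * P.c31 + (2 * P.c22 : ℝ)) * U ^ 2).re
          + (3 * P.c31.re + 4 * P.c22) * Complex.normSq U
          + ((10 * P.c50 + 4 * P.c41 + P.c32) * U ^ 3).re
          + ((6 * P.c41 + 6 * P.c32 + 3 * cj P.c32) * (U ^ 2 * cj U)).re)
        + G ^ 3 * ((c30 P t + c21 P t).re
          + ((4 * P.c40 + 3 * P.c31 + cj P.c31 + (4 * P.c22 : ℝ)) * U).re
          + ((10 * P.c50 + 6 * P.c41 + 3 * P.c32 + cj P.c32) * U ^ 2).re
          + (4 * P.c41.re + 6 * P.c32.re) * Complex.normSq U)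
        - G ^ 4 * ((P.c40 + P.c31).re + P.c22
          + ((5 * P.c50 + 4 * P.c41 + cj P.c41 + 3 * P.c32 + 2 * cj P.c32) * U).re)
        + G ^ 5 * (P.c50 + P.c41 + P.c32).re := by
    unfold Pf
    have a1 := m30 (c30 P t) U G
    have a2 := m21 (c21 P t) U G
    have a3 := m40 P.c40 U G
    have a4 := m31 P.c31 U G
    have a5 := m22 P.c22 U G
    have a6 := m50 P.c50 U G
    have a7 := m41 P.c41 U G
    have a8 := m32 P.c32 U G
    have r3 : ∀ z : ℂ, (3 * z).re = 3 * z.re := fun z => by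
      simpa using Complex.re_ofReal_mul 3 z
    have lin2 : ∀ x y : ℂ, (2 * x * y).re = 2 * (x * y).re := fun x y => by
      rw [mul_assoc]; simpa using Complex.re_ofReal_mul 2 (x * y)
    have lin3 : ∀ x y : ℂ, (3 * x * y).re = 3 * (x * y).re := fun x y => by
      rw [mul_assoc]; simpa using Complex.re_ofReal_mul 3 (x * y)
    have lin4 : ∀ x y : ℂ, (4 * x * y).re = 4 * (x * y).re := fun x y => by
      rw [mul_assoc]; simpa using Complex.re_ofReal_mul 4 (x * y)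
    have lin5 : ∀ x y : ℂ, (5 * x * y).re = 5 * (x * y).re := fun x y => by
      rw [mul_assoc]; simpa using Complex.re_ofReal_mul 5 (x * y)
    have lin6 : ∀ x y : ℂ, (6 * x * y).re = 6 * (x * y).re := fun x y => by
      rw [mul_assoc]; simpa using Complex.re_ofReal_mul 6 (x * y)
    have lin10 : ∀ x y : ℂ, (10 * x * y).re = 10 * (x * y).re := fun x y => by
      rw [mul_assoc]; simpa using Complex.re_ofReal_mul 10 (x * y)
    simp only [Complex.add_re, add_mul, Complex.ofReal_mul, Complex.ofReal_ofNat, lin2, lin3,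
      lin4, lin5, lin6, lin10]
    linear_combination a1 + a2 + a3 + a4 + a5 + a6 + a7 + a8
  rw [e0]
  have e3 : ∀ A B : ℝ, Pf P t U + A - B = (Pf P t U - B) + A := fun A B => by ring
  rw [e3, e2, ← hG]
  ring

end Pool.Agent.Helper42.DL
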